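import Pool.Agent.H69.LR.Defs
import Pool.Agent.H77.LT.Geo

/-!
# [H69 LR BIJ] Triples of positive integers with sum `2m+1` and cells

`toCell x`: the cell of a triple of positive integers with sum `N = 2m+1` (every coordinate is less
than `N`, so its residue is not zero).
* `toCell_inj`: `mkc_eq_iff`: the residues are equal (then the triples are equal, all numbers being
  less than `N`) or opposite (then `x d + y d = N` for all `d` and the sum of everything would be
  `3 N`, but it is `2 N`).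
* `toCell_surj`: the representatives of the three coordinates of `q` have sum `N` or `2 N` (they are
  between `1` and `N-1` and the sum is divisible by `N`); in the second case take the complements
  `N - v d`, which represent `-q`; use `mkc_self`, `mkc_eq_iff`.
* `ln_toCell`: `ln_mkc` and `cls (x d) = min (x d) (N - x d)`.
-/

open Finset

namespace H69LR

open H77.LT

theorem bij_lt {m : ℕ} (x : Fin 3 → ℕ) (h1 : ∀ d, 1 ≤ x d)
    (h2 : x 0 + x 1 + x 2 = 2 * m + 1) (d : Fin 3) : x d < 2 * m + 1 := by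
  have a0 := h1 0
  have a1 := h1 1
  have a2 := h1 2
  fin_cases d
  · show x 0 < 2 * m + 1
    omega
  · show x 1 < 2 * m + 1
    omega
  · show x 2 < 2 * m + 1
    omega

theorem bij_val {m : ℕ} (x : Fin 3 → ℕ) (h1 : ∀ d, 1 ≤ x d)
    (h2 : x 0 + x 1 + x 2 = 2 * m + 1) (d : Fin 3) : ((x d : ℕ) : ZN m).val = x d :=
  ZMod.val_cast_of_lt (bij_lt x h1 h2 d)

theorem toCell_valid {m : ℕ} (x : Fin 3 → ℕ) (h1 : ∀ d, 1 ≤ x d)
    (h2 : x 0 + x 1 + x 2 = 2 * m + 1) : Valid (fun d => ((x d : ℕ) : ZN m)) := by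
  refine ⟨fun d hd => ?_, ?_⟩
  · have h3 := bij_val x h1 h2 d
    have h4 := h1 d
    dsimp only at hd
    rw [hd, ZMod.val_zero] at h3
    omega
  · dsimp only
    rw [← Nat.cast_add, ← Nat.cast_add, h2]
    exact ZMod.natCast_self _

/-- the cell of a triple of positive integers with sum `2m+1` -/
def toCell {m : ℕ} (x : Fin 3 → ℕ) (h1 : ∀ d, 1 ≤ x d) (h2 : x 0 + x 1 + x 2 = 2 * m + 1) :
    Cell m := mkc (fun d => ((x d : ℕ) : ZN m)) (toCell_valid x h1 h2)

theorem toCell_inj {m : ℕ} (x y : Fin 3 → ℕ) (hx1 : ∀ d, 1 ≤ x d)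
    (hx2 : x 0 + x 1 + x 2 = 2 * m + 1) (hy1 : ∀ d, 1 ≤ y d) (hy2 : y 0 + y 1 + y 2 = 2 * m + 1)
    (h : toCell x hx1 hx2 = toCell y hy1 hy2) : x = y := by
  unfold toCell at h
  rw [mkc_eq_iff] at h
  rcases h with h | h
  · funext d
    have h3 := congrArg ZMod.val (congrFun h d)
    rw [bij_val x hx1 hx2 d, bij_val y hy1 hy2 d] at h3
    exact h3
  · exfalso
    have key : ∀ d, x d = 2 * m + 1 - y d := by
      intro d
      have h3 := congrArg ZMod.val (congrFun h d)
      rw [Pi.neg_apply, geo_val_neg ((toCell_valid y hy1 hy2).1 d)] at h3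
      dsimp only at h3
      rw [bij_val x hx1 hx2 d, bij_val y hy1 hy2 d] at h3
      exact h3
    have a0 := key 0
    have a1 := key 1
    have a2 := key 2
    have b0 := bij_lt y hy1 hy2 0
    have b1 := bij_lt y hy1 hy2 1
    have b2 := bij_lt y hy1 hy2 2
    omega

theorem toCell_surj {m : ℕ} (q : Cell m) : ∃ (x : Fin 3 → ℕ) (h1 : ∀ d, 1 ≤ x d)
    (h2 : x 0 + x 1 + x 2 = 2 * m + 1), toCell x h1 h2 = q := by
  have hv1 : ∀ d, 1 ≤ (q.1 d).val := fun d => geo_val_pos (q.2.1.1 d)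
  have hv2 : ∀ d, (q.1 d).val < 2 * m + 1 := fun d => ZMod.val_lt _
  have hdvd : (2 * m + 1) ∣ (q.1 0).val + (q.1 1).val + (q.1 2).val := by
    rw [← ZMod.natCast_eq_zero_iff]
    push_cast
    simp only [ZMod.natCast_zmod_val]
    exact q.2.1.2
  obtain ⟨k, hk⟩ := hdvd
  have c0 := hv1 0
  have c1 := hv1 1
  have c2 := hv1 2
  have d0 := hv2 0
  have d1 := hv2 1
  have d2 := hv2 2
  have hk0 : k ≠ 0 := by
    rintro rfl
    omega
  have hk3 : k < 3 := by
    by_contra hk3
    have h3 : (2 * m + 1) * 3 ≤ (2 * m + 1) * k := Nat.mul_le_mul_left _ (by omega)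
    omega
  have hk12 : k = 1 ∨ k = 2 := by omega
  rcases hk12 with rfl | rfl
  · refine ⟨fun d => (q.1 d).val, hv1, by rw [mul_one] at hk; exact hk, ?_⟩
    unfold toCell
    have h1 : mkc q.1 q.2.1 = q := mkc_self q
    conv_rhs => rw [← h1]
    rw [mkc_eq_iff]
    left
    funext d
    dsimp only
    rw [ZMod.natCast_zmod_val]
  · refine ⟨fun d => 2 * m + 1 - (q.1 d).val, fun d => ?_, ?_, ?_⟩
    · have := hv2 d
      show 1 ≤ 2 * m + 1 - (q.1 d).val
      omega
    · show 2 * m + 1 - (q.1 0).val + (2 * m + 1 - (q.1 1).val) + (2 * m + 1 - (q.1 2).val) =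
        2 * m + 1
      omega
    · unfold toCell
      have h1 : mkc q.1 q.2.1 = q := mkc_self q
      conv_rhs => rw [← h1]
      rw [mkc_eq_iff]
      right
      funext d
      dsimp only
      rw [Nat.cast_sub (hv2 d).le, ZMod.natCast_self, ZMod.natCast_zmod_val, zero_sub,
        Pi.neg_apply]

theorem ln_toCell {m : ℕ} (x : Fin 3 → ℕ) (h1 : ∀ d, 1 ≤ x d)
    (h2 : x 0 + x 1 + x 2 = 2 * m + 1) (d : Fin 3) (l : Fin m) :
    ln d (toCell x h1 h2) = l ↔ (x d = l.val + 1 ∨ x d + (l.val + 1) = 2 * m + 1) := by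
  unfold toCell
  rw [ln_mkc]
  have h3 := bij_val x h1 h2 d
  have h4 := bij_lt x h1 h2 d
  have h5 := h1 d
  have h6 := l.2
  rw [Fin.ext_iff]
  unfold lnOf cls
  dsimp only
  rw [h3]
  omega

end H69LR
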