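import Pool.Agent.H77.LT.Base

/-!
# Latin triangles: from the core theorem to latin triangles. Definitions

`Core` is the theorem proved by absorption: all vertices except the forbidden entries `F` have a
perfect matching. `Fill sy F` says that the map `sy : Cell m → Fin n` uses in the line `(κ,l)` every
symbol `s` with `(κ,l,s) ∉ F` exactly once and no other symbol.

`IsCell`, `symbols`, `IsLatinTriangle`: latin triangles of the problem.

Border data for even orders (`n = 2m+2`, `2m+3` symbols, coordinates lowered by 1, sum `2m+1`):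
`bsym κ c e` is the symbol of the two border cells on side `κ` (coordinate `κ` equal to zero) of
class `c`, one for each sign `e`; `FE m` are the entries used by the border.
-/

open Finset

namespace H69LR

open H77.LT

/-- the core theorem -/
def Core : Prop := ∃ m0 : ℕ, ∀ m : ℕ, m0 ≤ m → ∀ (n : ℕ) (F : Finset (Fin 3 × Fin m × Fin n)),
  Forb m n F → PM (univ \ ents F : Finset (Vt m n))

/-- filling of the cells -/
def Fill {m n : ℕ} (sy : Cell m → Fin n) (F : Finset (Fin 3 × Fin m × Fin n)) : Prop :=
  ∀ κ l s, ((κ, l, s) ∉ F → ∃! q, ln κ q = l ∧ sy q = s) ∧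
    ((κ, l, s) ∈ F → ∀ q, ln κ q = l → sy q ≠ s)

/-- the cells of the triangle of order `n`: triples of positive integers with sum `n+2` -/
def IsCell (n : ℕ) (x : Fin 3 → ℕ) : Prop := (∀ d, 1 ≤ x d) ∧ x 0 + x 1 + x 2 = n + 2

/-- the number of symbols of a latin triangle of order `n` -/
def symbols (n : ℕ) : ℕ := if Odd n then n else n + 1

/-- `L` is a latin triangle of order `n`: in each direction `d` the lines are, for `1 ≤ i ≤ (n+1)/2`,
the union of the rows `i` and `n+2-i` (`n` odd; no cell has a coordinate `n+1`) resp. `i` and `n+1-i`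
(`n` even), and each symbol occurs in each line exactly once -/
def IsLatinTriangle (n : ℕ) (L : (Fin 3 → ℕ) → Fin (symbols n)) : Prop :=
  ∀ (d : Fin 3) (i : ℕ), 1 ≤ i → 2 * i ≤ n + 1 → ∀ s, ∃! x, IsCell n x ∧
    (x d = i ∨ x d + i = if Odd n then n + 2 else n + 1) ∧ L x = s

/-- the symbol of the border cells on side `κ` of class `c` and sign `e` -/
def bsym {m : ℕ} (κ : Fin 3) (c : Fin m) (e : Bool) : Fin (2 * m + 3) :=
  ⟨(c.val + 3 * m - κ.val) % m + (if e then m else 0), by
    have hm : 0 < m := lt_of_le_of_lt (Nat.zero_le _) c.2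
    have := Nat.mod_lt (c.val + 3 * m - κ.val) hm
    split_ifs <;> omega⟩

/-- the entries used by the border -/
def FE (m : ℕ) : Finset (Fin 3 × Fin m × Fin (2 * m + 3)) :=
  univ.filter (fun t => ∃ (κ : Fin 3) (e : Bool), κ ≠ t.1 ∧ t.2.2 = bsym κ t.2.1 e)

end H69LR
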