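import Pool.Agent.H69.LR.Defs

/-!
# [H69 LR EVENF] The border entries satisfy `Forb`

Let `3 ≤ m`. `bsym κ c e = bsym κ' c e'` with `κ ≠ κ'` is impossible for `m ≥ 3` (`bsym_inj`), and
`bsym κ c e = bsym κ' c' e'` implies `e = e'` and `(c - κ) = (c' - κ') mod m`.
* `line`: the symbols `s` with `(κ',l,s) ∈ FE m` are the four symbols `bsym κ l e`, `κ ≠ κ'`.
* `symb`, `symb2`: for a symbol `s ≥ 2m` there are no entries; for `s = y + m e`, `y < m`, the lines `l`
  with `(κ',l,s) ∈ FE m` are the two lines `(y + κ) mod m`, `κ ≠ κ'`.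
-/

open Finset

namespace H69LR

open H77.LT

theorem evenf_mod {m : ℕ} (hm : 3 ≤ m) (k c : ℕ) (hk : k < 3) (hc : c < m) :
    (c + 3 * m - k) % m = if k ≤ c then c - k else c + m - k := by
  split_ifs with h
  · have h1 : c + 3 * m - k = (c - k) + m * 3 := by omega
    rw [h1, Nat.add_mul_mod_self_left, Nat.mod_eq_of_lt (by omega)]
  · have h1 : c + 3 * m - k = (c + m - k) + m * 2 := by omega
    rw [h1, Nat.add_mul_mod_self_left, Nat.mod_eq_of_lt (by omega)]

theorem evenf_val {m : ℕ} (hm : 3 ≤ m) (κ : Fin 3) (c : Fin m) (e : Bool) :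
    (bsym κ c e).val = (if κ.val ≤ c.val then c.val - κ.val else c.val + m - κ.val) +
      (if e then m else 0) := by
  unfold bsym
  dsimp only
  rw [evenf_mod hm κ.val c.val κ.2 c.2]

/-- equality of border symbols -/
theorem bsym_inj {m : ℕ} (hm : 3 ≤ m) (κ κ' : Fin 3) (c : Fin m) (e e' : Bool)
    (h : bsym κ c e = bsym κ' c e') : κ = κ' ∧ e = e' := by
  have h1 := congrArg Fin.val h
  rw [evenf_val hm, evenf_val hm] at h1
  have h2 := κ.2
  have h3 := κ'.2
  have h4 := c.2
  have h5 : κ.val = κ'.val ∧ e = e' := by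
    cases e <;> cases e' <;> simp only [Bool.false_eq_true, if_true, if_false, reduceCtorEq,
      and_false, and_true] at h1 ⊢ <;> split_ifs at h1 <;> omega
  exact ⟨Fin.ext h5.1, h5.2⟩

/-- on one side, the symbol determines the class and the sign -/
theorem bsym_inj_side {m : ℕ} (hm : 3 ≤ m) (κ : Fin 3) (c c' : Fin m) (e e' : Bool)
    (h : bsym κ c e = bsym κ c' e') : c = c' ∧ e = e' := by
  have h1 := congrArg Fin.val h
  rw [evenf_val hm, evenf_val hm] at h1
  have h2 := κ.2
  have h3 := c.2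
  have h4 := c'.2
  have h5 : c.val = c'.val ∧ e = e' := by
    cases e <;> cases e' <;> simp only [Bool.false_eq_true, if_true, if_false, reduceCtorEq,
      and_false, and_true] at h1 ⊢ <;> split_ifs at h1 <;> omega
  exact ⟨Fin.ext h5.1, h5.2⟩

theorem bsym_lt {m : ℕ} (κ : Fin 3) (c : Fin m) (e : Bool) :
    (bsym κ c e).val < 2 * m := by
  have hm : 0 < m := lt_of_le_of_lt (Nat.zero_le _) c.2
  have h1 := Nat.mod_lt (c.val + 3 * m - κ.val) hm
  unfold bsym
  dsimp only
  split_ifs <;> omega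

/-- every symbol less than `2m` occurs on every side -/
theorem bsym_surj {m : ℕ} (hm : 3 ≤ m) (κ : Fin 3) (s : Fin (2 * m + 3)) (hs : s.val < 2 * m) :
    ∃ (c : Fin m) (e : Bool), bsym κ c e = s := by
  have hκ := κ.2
  obtain ⟨y, e, hy, hs'⟩ : ∃ (y : ℕ) (e : Bool), y < m ∧ s.val = y + (if e then m else 0) := by
    by_cases h : s.val < m
    · exact ⟨s.val, false, h, by simp⟩
    · exact ⟨s.val - m, true, by omega, by simp; omega⟩
  by_cases h : y + κ.val < m
  · refine ⟨⟨y + κ.val, h⟩, e, ?_⟩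
    apply Fin.ext
    rw [evenf_val hm, hs']
    dsimp only
    rw [if_pos (by omega)]
    omega
  · refine ⟨⟨y + κ.val - m, by omega⟩, e, ?_⟩
    apply Fin.ext
    rw [evenf_val hm, hs']
    dsimp only
    rw [if_neg (by omega)]
    omega

theorem evenf_ne_card (κ : Fin 3) : (univ.filter (fun k : Fin 3 => k ≠ κ)).card = 2 := by
  revert κ
  decide

theorem evenf_line {m : ℕ} (hm : 3 ≤ m) (κ : Fin 3) (l : Fin m) :
    ((FE m).filter (fun e => e.1 = κ ∧ e.2.1 = l)).card = 4 := by
  have h1 : (FE m).filter (fun e => e.1 = κ ∧ e.2.1 = l) =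
      ((univ.filter (fun k : Fin 3 => k ≠ κ)) ×ˢ (univ : Finset Bool)).image
        (fun x => (κ, l, bsym x.1 l x.2)) := by
    ext t
    simp only [FE, mem_filter, mem_univ, true_and, mem_image, mem_product, and_true, Prod.exists]
    constructor
    · rintro ⟨⟨k, e, h2, h3⟩, h4, h5⟩
      refine ⟨k, e, by rw [← h4]; exact h2, ?_⟩
      rw [← h4, ← h5, ← h3]
    · rintro ⟨k, e, h2, rfl⟩
      exact ⟨⟨k, e, h2, rfl⟩, rfl, rfl⟩
  rw [h1, card_image_of_injective, card_product, evenf_ne_card]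
  · rfl
  · rintro ⟨k, e⟩ ⟨k', e'⟩ h
    simp only [Prod.mk.injEq, true_and] at h
    obtain ⟨h2, h3⟩ := bsym_inj hm k k' l e e' h
    rw [h2, h3]

theorem evenf_symb {m : ℕ} (hm : 3 ≤ m) (κ : Fin 3) (s : Fin (2 * m + 3)) :
    ((FE m).filter (fun e => e.1 = κ ∧ e.2.2 = s)).card = if s.val < 2 * m then 2 else 0 := by
  split_ifs with hs
  · choose c e h using fun k : Fin 3 => bsym_surj hm k s hs
    have h1 : (FE m).filter (fun e => e.1 = κ ∧ e.2.2 = s) =
        (univ.filter (fun k : Fin 3 => k ≠ κ)).image (fun k => (κ, c k, s)) := by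
      ext t
      simp only [FE, mem_filter, mem_univ, true_and, mem_image]
      constructor
      · rintro ⟨⟨k, e', h2, h3⟩, h4, h5⟩
        refine ⟨k, by rw [← h4]; exact h2, ?_⟩
        have h6 : bsym k (c k) (e k) = bsym k t.2.1 e' := by rw [h k, ← h5, h3]
        obtain ⟨h7, h8⟩ := bsym_inj_side hm k _ _ _ _ h6
        rw [← h4, ← h5, h7]
      · rintro ⟨k, h2, rfl⟩
        exact ⟨⟨k, e k, h2, (h k).symm⟩, rfl, rfl⟩
    rw [h1, card_image_of_injective, evenf_ne_card]
    intro k k' hk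
    simp only [Prod.mk.injEq, true_and, and_true] at hk
    have h2 : bsym k (c k) (e k) = bsym k' (c k) (e k') := by rw [h k, hk, h k']
    exact (bsym_inj hm k k' (c k) _ _ h2).1
  · rw [card_eq_zero, filter_eq_empty_iff]
    intro t ht h1
    simp only [FE, mem_filter, mem_univ, true_and] at ht
    obtain ⟨k, e', h2, h3⟩ := ht
    have h4 := bsym_lt k t.2.1 e'
    rw [← h3, h1.2] at h4
    exact hs h4

theorem forb_FE {m : ℕ} (hm : 3 ≤ m) : Forb m (2 * m + 3) (FE m) := by
  refine ⟨le_rfl, fun κ l => ?_, fun κ κ' s => ?_, fun κ s => ?_⟩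
  · rw [evenf_line hm]
    omega
  · rw [evenf_symb hm, evenf_symb hm]
  · rw [evenf_symb hm]
    split_ifs <;> omega

end H69LR
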