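import Pool.Agent.H69.LR.Fill
import Pool.Agent.H69.LR.Bij
import Pool.Agent.H69.LR.EvenF

/-!
# [H69 LR EVEN] Even orders
-/

open Finset

namespace H69LR

open H77.LT

/-- corner cells -/
def cornerX (m : ℕ) (κ : Fin 3) : Fin 3 → ℕ := fun d => if d = κ then 2 * m + 2 else 1

def zz {m : ℕ} (c : Fin m) (e : Bool) : ℕ := if e then c.val + 1 else 2 * m - c.val

/-- border cells which are not corners -/
def sideX {m : ℕ} (κ : Fin 3) (c : Fin m) (e : Bool) : Fin 3 → ℕ := fun d =>
  if d = κ then 1 else if d = κ + 1 then zz c e + 1 else 2 * m + 2 - zz c e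

theorem zz_pos {m : ℕ} (c : Fin m) (e : Bool) : 1 ≤ zz c e := by
  have := c.2
  unfold zz
  split_ifs <;> omega

theorem zz_le {m : ℕ} (c : Fin m) (e : Bool) : zz c e ≤ 2 * m := by
  have := c.2
  unfold zz
  split_ifs <;> omega

theorem zz_inj {m : ℕ} (c c' : Fin m) (e e' : Bool) (h : zz c e = zz c' e') : c = c' ∧ e = e' := by
  have h1 := c.2
  have h2 := c'.2
  unfold zz at h
  cases e <;> cases e' <;> simp at h ⊢
  · apply Fin.ext
    omega
  · omega
  · omega
  · apply Fin.ext
    omega

theorem zz_class {m : ℕ} (c l : Fin m) (e : Bool) :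
    (zz c e = l.val + 1 ∨ zz c e = 2 * m - l.val) ↔ c = l := by
  have h1 := c.2
  have h2 := l.2
  rw [Fin.ext_iff]
  unfold zz
  cases e <;> simp <;> omega

theorem zz_surj {m : ℕ} (z : ℕ) (h1 : 1 ≤ z) (h2 : z ≤ 2 * m) : ∃ (c : Fin m) (e : Bool),
    zz c e = z := by
  by_cases hz : z ≤ m
  · refine ⟨⟨z - 1, by omega⟩, true, ?_⟩
    unfold zz
    simp
    omega
  · refine ⟨⟨2 * m - z, by omega⟩, false, ?_⟩
    unfold zz
    simp
    omega

theorem side_self {m : ℕ} (κ : Fin 3) (c : Fin m) (e : Bool) : sideX κ c e κ = 1 := by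
  simp [sideX]

theorem side_one {m : ℕ} (κ : Fin 3) (c : Fin m) (e : Bool) :
    sideX κ c e (κ + 1) = zz c e + 1 := by
  fin_cases κ <;> simp [sideX]

theorem side_two {m : ℕ} (κ : Fin 3) (c : Fin m) (e : Bool) :
    sideX κ c e (κ + 2) = 2 * m + 2 - zz c e := by
  fin_cases κ <;> simp [sideX]

theorem side_ge {m : ℕ} (κ d : Fin 3) (c : Fin m) (e : Bool) (h : d ≠ κ) :
    2 ≤ sideX κ c e d := by
  have h1 := zz_pos c e
  have h2 := zz_le c e
  unfold sideX
  rw [if_neg h]
  split_ifs <;> omega

theorem side_cell {m : ℕ} (κ : Fin 3) (c : Fin m) (e : Bool) : IsCell (2 * m + 2) (sideX κ c e) := by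
  have h1 := zz_pos c e
  have h2 := zz_le c e
  constructor
  · intro d
    unfold sideX
    split_ifs <;> omega
  · fin_cases κ <;> simp [sideX] <;> omega

theorem corner_cell (m : ℕ) (κ : Fin 3) : IsCell (2 * m + 2) (cornerX m κ) := by
  constructor
  · intro d
    unfold cornerX
    split_ifs <;> omega
  · fin_cases κ <;> simp [cornerX] <;> omega

theorem side_inj {m : ℕ} (κ κ' : Fin 3) (c c' : Fin m) (e e' : Bool)
    (h : sideX κ c e = sideX κ' c' e') : κ = κ' ∧ c = c' ∧ e = e' := by
  have hκ : κ = κ' := by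
    by_contra hne
    have h1 := side_ge κ' κ c' e' hne
    rw [← h, side_self] at h1
    omega
  subst hκ
  have h1 := congrFun h (κ + 1)
  rw [side_one, side_one] at h1
  exact ⟨rfl, zz_inj c c' e e' (by omega)⟩

theorem corner_inj {m : ℕ} (κ κ' : Fin 3) (h : cornerX m κ = cornerX m κ') : κ = κ' := by
  by_contra hne
  have h1 := congrFun h κ
  unfold cornerX at h1
  rw [if_pos rfl, if_neg hne] at h1
  omega

theorem side_ne_corner {m : ℕ} (κ κ' : Fin 3) (c : Fin m) (e : Bool) :
    sideX κ c e ≠ cornerX m κ' := by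
  intro h
  have h1 := zz_pos c e
  have h2 := zz_le c e
  have h3 := congrFun h (κ + 1)
  have h4 := congrFun h (κ + 2)
  rw [side_one] at h3
  rw [side_two] at h4
  have h5 : ∀ d, cornerX m κ' d = 1 ∨ cornerX m κ' d = 2 * m + 2 := by
    intro d
    unfold cornerX
    split_ifs <;> simp
  rcases h5 (κ + 1) with h6 | h6 <;> rw [h6] at h3 <;> omega

/-- every cell is inner, a side cell or a corner -/
theorem cell_cases {m : ℕ} (x : Fin 3 → ℕ) (hx : IsCell (2 * m + 2) x) :
    (∀ d, 2 ≤ x d) ∨ (∃ κ, x = cornerX m κ) ∨ (∃ κ c e, x = sideX (m := m) κ c e) := by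
  by_cases hall : ∀ d, 2 ≤ x d
  · exact Or.inl hall
  push Not at hall
  obtain ⟨κ, hκ⟩ := hall
  have hκ1 : x κ = 1 := by
    have := hx.1 κ
    omega
  have hsum : x (κ + 1) + x (κ + 2) = 2 * m + 3 := by
    have h2 := hx.2
    fin_cases κ <;> simp at hκ1 ⊢ <;> omega
  have hthree : ∀ d : Fin 3, d = κ ∨ d = κ + 1 ∨ d = κ + 2 := by
    intro d
    fin_cases κ <;> fin_cases d <;> simp
  have h1 := hx.1 (κ + 1)
  have h2 := hx.1 (κ + 2)
  by_cases ha : x (κ + 1) = 1
  · right; left
    refine ⟨κ + 2, ?_⟩
    funext d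
    rcases hthree d with rfl | rfl | rfl
    · rw [hκ1]
      unfold cornerX
      rw [if_neg]
      fin_cases d <;> simp
    · rw [ha]
      unfold cornerX
      rw [if_neg]
      fin_cases κ <;> simp
    · unfold cornerX
      rw [if_pos rfl]
      omega
  by_cases hb : x (κ + 2) = 1
  · right; left
    refine ⟨κ + 1, ?_⟩
    funext d
    rcases hthree d with rfl | rfl | rfl
    · rw [hκ1]
      unfold cornerX
      rw [if_neg]
      fin_cases d <;> simp
    · unfold cornerX
      rw [if_pos rfl]
      omega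
    · rw [hb]
      unfold cornerX
      rw [if_neg]
      fin_cases κ <;> simp
  right; right
  obtain ⟨c, e, hz⟩ := zz_surj (m := m) (x (κ + 1) - 1) (by omega) (by omega)
  refine ⟨κ, c, e, ?_⟩
  funext d
  rcases hthree d with rfl | rfl | rfl
  · rw [side_self, hκ1]
  · rw [side_one, hz]
    omega
  · rw [side_two, hz]
    omega

/-- membership in the side lines -/
theorem corner_line {m : ℕ} (κ d : Fin 3) (i : ℕ) (h1 : 1 ≤ i) (h2 : 2 * i ≤ 2 * m + 3) :
    (cornerX m κ d = i ∨ cornerX m κ d + i = 2 * m + 3) ↔ i = 1 := by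
  unfold cornerX
  split_ifs <;> omega

theorem side_line_one {m : ℕ} (κ d : Fin 3) (c : Fin m) (e : Bool) :
    (sideX κ c e d = 1 ∨ sideX κ c e d + 1 = 2 * m + 3) ↔ d = κ := by
  have h1 := zz_pos c e
  have h2 := zz_le c e
  unfold sideX
  split_ifs with ha hb
  · simp [ha]
  · simp only [ha, iff_false]
    omega
  · simp only [ha, iff_false]
    omega

theorem side_line {m : ℕ} (κ d : Fin 3) (c : Fin m) (e : Bool) (l : Fin m) :
    (sideX κ c e d = l.val + 2 ∨ sideX κ c e d + (l.val + 2) = 2 * m + 3) ↔ (d ≠ κ ∧ c = l) := by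
  have h1 := zz_pos c e
  have h2 := zz_le c e
  have h3 := l.2
  rw [← zz_class c l e]
  unfold sideX
  split_ifs with ha hb
  · simp only [ha, ne_eq, not_true_eq_false, false_and, iff_false]
    omega
  · simp only [ha, ne_eq, not_false_eq_true, true_and]
    omega
  · simp only [ha, ne_eq, not_false_eq_true, true_and]
    omega

theorem exists_L {m : ℕ} (sy : Cell m → Fin (2 * m + 3)) :
    ∃ L : (Fin 3 → ℕ) → Fin (2 * m + 3),
      (∀ (y : Fin 3 → ℕ) (h1 : ∀ d, 1 ≤ y d) (h2 : y 0 + y 1 + y 2 = 2 * m + 1),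
        L (fun d => y d + 1) = sy (toCell y h1 h2)) ∧
      (∀ κ : Fin 3, (L (cornerX m κ)).val = 2 * m + κ.val) ∧
      (∀ κ c e, L (sideX κ c e) = bsym κ c e) := by
  classical
  have hR : ∀ x : Fin 3 → ℕ, ∃ s : Fin (2 * m + 3),
      (∀ (y : Fin 3 → ℕ) (h1 : ∀ d, 1 ≤ y d) (h2 : y 0 + y 1 + y 2 = 2 * m + 1),
        x = (fun d => y d + 1) → s = sy (toCell y h1 h2)) ∧
      (∀ κ : Fin 3, x = cornerX m κ → s.val = 2 * m + κ.val) ∧
      (∀ κ c e, x = sideX κ c e → s = bsym κ c e) := by
    intro x
    by_cases hc : ∃ κ, x = cornerX m κ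
    · obtain ⟨κ, rfl⟩ := hc
      refine ⟨⟨2 * m + κ.val, by omega⟩, ?_, ?_, ?_⟩
      · intro y h1 h2 h
        exfalso
        have h3 := congrFun h (κ + 1)
        have h4 := h1 (κ + 1)
        have h5 : cornerX m κ (κ + 1) = 1 := by
          unfold cornerX
          rw [if_neg]
          fin_cases κ <;> simp
        simp only [h5] at h3
        omega
      · intro κ' h
        rw [corner_inj κ κ' h]
      · intro κ' c e h
        exact absurd h.symm (side_ne_corner κ' κ c e)
    by_cases hs : ∃ κ c e, x = sideX (m := m) κ c e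
    · obtain ⟨κ, c, e, rfl⟩ := hs
      refine ⟨bsym κ c e, ?_, ?_, ?_⟩
      · intro y h1 h2 h
        exfalso
        have h3 := congrFun h κ
        have h4 := h1 κ
        rw [side_self] at h3
        omega
      · intro κ' h
        exact absurd h (side_ne_corner κ κ' c e)
      · intro κ' c' e' h
        obtain ⟨rfl, rfl, rfl⟩ := side_inj κ κ' c c' e e' h
        rfl
    by_cases hi : ∃ (y : Fin 3 → ℕ) (_ : ∀ d, 1 ≤ y d) (_ : y 0 + y 1 + y 2 = 2 * m + 1),
        x = (fun d => y d + 1)
    · obtain ⟨y, h1, h2, rfl⟩ := hi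
      refine ⟨sy (toCell y h1 h2), ?_, ?_, ?_⟩
      · intro y' h1' h2' h
        have : y = y' := by
          funext d
          have := congrFun h d
          omega
        subst this
        rfl
      · intro κ h
        exact absurd ⟨κ, h⟩ hc
      · intro κ c e h
        exact absurd ⟨κ, c, e, h⟩ hs
    · refine ⟨0, ?_, ?_, ?_⟩
      · intro y h1 h2 h
        exact absurd ⟨y, h1, h2, h⟩ hi
      · intro κ h
        exact absurd ⟨κ, h⟩ hc
      · intro κ c e h
        exact absurd ⟨κ, c, e, h⟩ hs
  choose L hL1 hL2 hL3 using hR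
  exact ⟨L, fun y h1 h2 => hL1 _ y h1 h2 rfl, fun κ => hL2 _ κ rfl, fun κ c e => hL3 _ κ c e rfl⟩

theorem even_of_fill {m : ℕ} (hm : 3 ≤ m) (sy : Cell m → Fin (2 * m + 3)) (h : Fill sy (FE m)) :
    ∃ L : (Fin 3 → ℕ) → Fin (symbols (2 * m + 2)), IsLatinTriangle (2 * m + 2) L := by
  obtain ⟨L, hin, hco, hsi⟩ := exists_L sy
  have hne : ¬ Odd (2 * m + 2) := by
    intro ho
    rw [Nat.odd_iff] at ho
    omega
  have hs : symbols (2 * m + 2) = 2 * m + 3 := by
    unfold symbols
    rw [if_neg hne]
  -- the property for `L`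
  have key : ∀ (d : Fin 3) (i : ℕ), 1 ≤ i → 2 * i ≤ 2 * m + 3 → ∀ s : Fin (2 * m + 3),
      ∃! x, IsCell (2 * m + 2) x ∧ (x d = i ∨ x d + i = 2 * m + 3) ∧ L x = s := by
    intro d i h1 h2 s
    rcases Nat.lt_or_ge 1 i with hi | hi
    · -- ordinary lines
      obtain ⟨l, hl⟩ : ∃ l : Fin m, i = l.val + 2 := ⟨⟨i - 2, by omega⟩, by simp; omega⟩
      subst hl
      by_cases hF : (d, l, s) ∈ FE m
      · -- border symbol
        obtain ⟨κ, e, hκ, hse⟩ := (Finset.mem_filter.mp hF).2
        simp only at hκ hse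
        refine ⟨sideX κ l e, ⟨side_cell κ l e, ?_, ?_⟩, ?_⟩
        · exact (side_line κ d l e l).mpr ⟨hκ.symm, rfl⟩
        · rw [hsi, hse]
        · rintro x ⟨hx, hxl, hxs⟩
          rcases cell_cases x hx with hxi | ⟨κ', rfl⟩ | ⟨κ', c, e', rfl⟩
          · exfalso
            have hy1 : ∀ d, 1 ≤ x d - 1 := fun d => by have := hxi d; omega
            have hy2 : (x 0 - 1) + (x 1 - 1) + (x 2 - 1) = 2 * m + 1 := by
              have := hx.2
              have := hxi 0
              have := hxi 1
              have := hxi 2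
              omega
            have hxy : x = fun d => (x d - 1) + 1 := by
              funext d
              have := hxi d
              omega
            have h3 := hin (fun d => x d - 1) hy1 hy2
            rw [hxy, h3] at hxs
            refine (h d l s).2 hF (toCell (fun d => x d - 1) hy1 hy2) ?_ hxs
            rw [ln_toCell]
            have := hxi d
            omega
          · exfalso
            rw [corner_line κ' d (l.val + 2) h1 h2] at hxl
            omega
          · obtain ⟨hd, rfl⟩ := (side_line κ' d c e' l).mp hxl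
            rw [hsi, hse] at hxs
            obtain ⟨rfl, rfl⟩ := bsym_inj hm κ' κ c e' e hxs
            rfl
      · -- inner symbol
        obtain ⟨q, ⟨hq1, hq2⟩, hq3⟩ := (h d l s).1 hF
        obtain ⟨y, hy1, hy2, hy⟩ := toCell_surj q
        refine ⟨fun d => y d + 1, ⟨⟨fun d => by simp, by simp only; omega⟩, ?_, ?_⟩, ?_⟩
        · have := (ln_toCell y hy1 hy2 d l).mp (by rw [hy]; exact hq1)
          simp only
          omega
        · rw [hin y hy1 hy2, hy, hq2]
        · rintro x ⟨hx, hxl, hxs⟩
          rcases cell_cases x hx with hxi | ⟨κ', rfl⟩ | ⟨κ', c, e', rfl⟩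
          · have hz1 : ∀ d, 1 ≤ x d - 1 := fun d => by have := hxi d; omega
            have hz2 : (x 0 - 1) + (x 1 - 1) + (x 2 - 1) = 2 * m + 1 := by
              have := hx.2
              have := hxi 0
              have := hxi 1
              have := hxi 2
              omega
            have hxy : x = fun d => (x d - 1) + 1 := by
              funext d
              have := hxi d
              omega
            have h3 := hin (fun d => x d - 1) hz1 hz2
            have h4 : toCell (fun d => x d - 1) hz1 hz2 = q := by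
              apply hq3
              constructor
              · rw [ln_toCell]
                have := hxi d
                omega
              · rw [← h3, ← hxy]
                exact hxs
            have h5 := toCell_inj _ y hz1 hz2 hy1 hy2 (h4.trans hy.symm)
            rw [hxy]
            funext d
            have := congrFun h5 d
            rw [← this]
          · exfalso
            rw [corner_line κ' d (l.val + 2) h1 h2] at hxl
            omega
          · exfalso
            obtain ⟨hd, rfl⟩ := (side_line κ' d c e' l).mp hxl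
            apply hF
            refine Finset.mem_filter.mpr ⟨Finset.mem_univ _, κ', e', ?_, ?_⟩
            · exact hd.symm
            · rw [← hxs, hsi]
    · -- the side line
      have hi1 : i = 1 := by omega
      subst hi1
      by_cases hsm : s.val < 2 * m
      · obtain ⟨c, e, hce⟩ := bsym_surj hm d s hsm
        refine ⟨sideX d c e, ⟨side_cell d c e, ?_, ?_⟩, ?_⟩
        · exact (side_line_one d d c e).mpr rfl
        · rw [hsi, hce]
        · rintro x ⟨hx, hxl, hxs⟩
          rcases cell_cases x hx with hxi | ⟨κ', rfl⟩ | ⟨κ', c', e', rfl⟩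
          · exfalso
            have := hxi 0
            have := hxi 1
            have := hxi 2
            have := hxi d
            have h3 := hx.2
            fin_cases d <;> simp at hxl <;> omega
          · exfalso
            have := hco κ'
            rw [hxs] at this
            omega
          · have hd := (side_line_one κ' d c' e').mp hxl
            subst hd
            rw [hsi, ← hce] at hxs
            obtain ⟨rfl, rfl⟩ := bsym_inj_side hm d c' c e' e hxs
            rfl
      · obtain ⟨κ, hκ⟩ : ∃ κ : Fin 3, s.val = 2 * m + κ.val :=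
          ⟨⟨s.val - 2 * m, by have := s.2; omega⟩, by simp; omega⟩
        refine ⟨cornerX m κ, ⟨corner_cell m κ, ?_, ?_⟩, ?_⟩
        · rw [corner_line κ d 1 le_rfl (by omega)]
        · apply Fin.ext
          rw [hco, hκ]
        · rintro x ⟨hx, hxl, hxs⟩
          rcases cell_cases x hx with hxi | ⟨κ', rfl⟩ | ⟨κ', c', e', rfl⟩
          · exfalso
            have := hxi 0
            have := hxi 1
            have := hxi 2
            have := hxi d
            have h3 := hx.2
            fin_cases d <;> simp at hxl <;> omega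
          · have h3 := hco κ'
            rw [hxs, hκ] at h3
            have : κ = κ' := by
              apply Fin.ext
              omega
            rw [this]
          · exfalso
            have h3 := bsym_lt κ' c' e'
            rw [← hsi, hxs] at h3
            omega
  refine ⟨fun x => Fin.cast hs.symm (L x), ?_⟩
  intro d i h1 h2 s
  obtain ⟨x, ⟨hx1, hx2, hx3⟩, hx4⟩ := key d i h1 (by omega) (Fin.cast hs s)
  refine ⟨x, ⟨hx1, ?_, ?_⟩, ?_⟩
  · rw [if_neg hne]
    exact hx2
  · simp only
    rw [hx3]
    rfl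
  · rintro y ⟨y1, y2, y3⟩
    rw [if_neg hne] at y2
    apply hx4 y
    refine ⟨y1, y2, ?_⟩
    rw [← y3]
    rfl

theorem even_orders (core : Core) : ∃ n0 : ℕ, ∀ n : ℕ, n0 < n → Even n →
    ∃ L : (Fin 3 → ℕ) → Fin (symbols n), IsLatinTriangle n L := by
  obtain ⟨m0, hcore⟩ := core
  refine ⟨2 * m0 + 10, ?_⟩
  intro n hn he
  obtain ⟨m, rfl⟩ : ∃ m, n = 2 * m + 2 := by
    obtain ⟨k, hk⟩ := he
    exact ⟨k - 1, by omega⟩
  have hm : 3 ≤ m := by omega
  obtain ⟨sy, hsy⟩ := fill_of_PM (FE m) (hcore m (by omega) _ _ (forb_FE hm))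
  exact even_of_fill hm sy hsy

end H69LR
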