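import Pool.Agent.H69.LR.Defs

/-!
# [H69 LR FILL] From a perfect matching to a filling

`PM W` gives `M` with `Mat M`, `cov M = W`. For a cell `q`, `Sum.inl q ∈ cov M` gives an edge
`(q', s) ∈ M` with `Sum.inl q ∈ ed q' s`, so `q' = q`; put `sy q = s`. If `(q,s), (q,s') ∈ M` then
`s = s'` (otherwise `Mat M` says the two edges are disjoint, but both contain `Sum.inl q`).
The entry `(κ,l,s) ∉ F` is in `cov M`: an edge `(q,s)` with `ln κ q = l`, so `sy q = s`; unique since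
two different edges through the same entry are not disjoint. If `(κ,l,s) ∈ F`, `ln κ q = l`, `sy q = s`
then `(q,s) ∈ M` and the entry `(κ,l,s)` would be in `cov M`.
-/

open Finset

namespace H69LR

open H77.LT

theorem fill_of_PM {m n : ℕ} (F : Finset (Fin 3 × Fin m × Fin n))
    (h : PM (univ \ ents F : Finset (Vt m n))) : ∃ sy : Cell m → Fin n, Fill sy F := by
  classical
  obtain ⟨M, hM, hcov⟩ := h
  have hinl : ∀ (q q' : Cell m) (s : Fin n), (Sum.inl q : Vt m n) ∈ ed q' s ↔ q = q' := by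
    intro q q' s
    unfold ed
    simp
  have hinr : ∀ (κ : Fin 3) (l : Fin m) (s : Fin n) (q' : Cell m) (s' : Fin n),
      (Sum.inr (κ, l, s) : Vt m n) ∈ ed q' s' ↔ ln κ q' = l ∧ s' = s := by
    intro κ l s q' s'
    unfold ed
    simp
  have hcell : ∀ q : Cell m, ∃ s, (q, s) ∈ M := by
    intro q
    have h1 : (Sum.inl q : Vt m n) ∈ cov M := by
      rw [hcov]
      simp [ents]
    unfold cov at h1
    rw [mem_biUnion] at h1
    obtain ⟨⟨q', s⟩, he, hq⟩ := h1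
    rw [hinl] at hq
    subst hq
    exact ⟨s, he⟩
  choose sy hsy using hcell
  have huniq : ∀ e ∈ M, ∀ f ∈ M, ∀ v, v ∈ ed e.1 e.2 → v ∈ ed f.1 f.2 → e = f := by
    intro e he f hf v hv hv'
    by_contra hne
    exact (Finset.disjoint_left.1 (hM e he f hf hne)) hv hv'
  have hsy' : ∀ q s, (q, s) ∈ M → sy q = s := by
    intro q s hqs
    have h1 := huniq _ hqs _ (hsy q) (Sum.inl q) ((hinl _ _ _).2 rfl) ((hinl _ _ _).2 rfl)
    exact (congrArg Prod.snd h1).symm
  refine ⟨sy, fun κ l s => ⟨fun hF => ?_, fun hF q hl hs => ?_⟩⟩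
  · have h1 : (Sum.inr (κ, l, s) : Vt m n) ∈ cov M := by
      rw [hcov]
      simp [ents, hF]
    unfold cov at h1
    rw [mem_biUnion] at h1
    obtain ⟨⟨q', s'⟩, he, hq⟩ := h1
    rw [hinr] at hq
    obtain ⟨h1, h2⟩ := hq
    subst h2
    refine ⟨q', ⟨h1, hsy' _ _ he⟩, ?_⟩
    rintro q ⟨hq1, hq2⟩
    have h3 := huniq (q, sy q) (hsy q) _ he (Sum.inr (κ, l, s')) ((hinr _ _ _ _ _).2 ⟨hq1, hq2⟩)
      ((hinr _ _ _ _ _).2 ⟨h1, rfl⟩)
    exact congrArg Prod.fst h3
  · have h1 : (Sum.inr (κ, l, s) : Vt m n) ∈ cov M := by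
      unfold cov
      rw [mem_biUnion]
      exact ⟨(q, sy q), hsy q, (hinr _ _ _ _ _).2 ⟨hl, hs⟩⟩
    rw [hcov] at h1
    simp [ents, hF] at h1

end H69LR
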