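import Pool.Agent.H69.LR.Odd
import Pool.Agent.H69.LR.Even

/-!
# Latin triangles of all large orders from the core theorem
-/

namespace H69LR

theorem latin_of_core (core : Core) : ∃ n0 : ℕ, ∀ n : ℕ, n0 < n →
    ∃ L : (Fin 3 → ℕ) → Fin (symbols n), IsLatinTriangle n L := by
  obtain ⟨n1, h1⟩ := odd_orders core
  obtain ⟨n2, h2⟩ := even_orders core
  refine ⟨max n1 n2, ?_⟩
  intro n hn
  rcases Nat.even_or_odd n with he | ho
  · exact h2 n (lt_of_le_of_lt (le_max_right _ _) hn) he
  · exact h1 n (lt_of_le_of_lt (le_max_left _ _) hn) ho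

end H69LR
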