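import Pool.Agent.H69.LR.Fill
import Pool.Agent.H69.LR.Bij

/-!
# [H69 LR ODD] Odd orders

`n = 2m-1`, `N = n+2 = 2m+1`. `F = ∅` satisfies `Forb` (each line has `2m-1 = n` cells). The filling
`sy` gives `L x = sy (toCell x)` for the cells (anything elsewhere). The line `i` (`1 ≤ i ≤ m`) of
direction `d` is the line `⟨i-1,_⟩ : Fin m` by `ln_toCell`; `toCell` is a bijection between the cells
of the triangle and `Cell m` (`toCell_inj`, `toCell_surj`).
-/

open Finset

namespace H69LR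

open H77.LT

theorem odd_of_fill {m : ℕ} (hm : 1 ≤ m) (sy : Cell m → Fin (2 * m - 1)) (h : Fill sy ∅) :
    ∃ L : (Fin 3 → ℕ) → Fin (symbols (2 * m - 1)), IsLatinTriangle (2 * m - 1) L := by
  classical
  have hodd : Odd (2 * m - 1) := ⟨m - 1, by omega⟩
  have hsym : symbols (2 * m - 1) = 2 * m - 1 := by
    unfold symbols
    rw [if_pos hodd]
  have hsum : ∀ x : Fin 3 → ℕ, IsCell (2 * m - 1) x → x 0 + x 1 + x 2 = 2 * m + 1 := by
    intro x hx
    have := hx.2
    omega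
  have hpos : 0 < symbols (2 * m - 1) := by omega
  refine ⟨fun x => if hx : IsCell (2 * m - 1) x then
    Fin.cast hsym.symm (sy (toCell x hx.1 (hsum x hx))) else ⟨0, hpos⟩, ?_⟩
  intro d i hi1 hi2 s
  have hi3 : i - 1 < m := by omega
  rw [if_pos hodd]
  obtain ⟨q, ⟨hq1, hq2⟩, hq3⟩ := (h d ⟨i - 1, hi3⟩ (Fin.cast hsym s)).1 (by simp)
  obtain ⟨x, h1, h2, hxq⟩ := toCell_surj q
  have hcell : IsCell (2 * m - 1) x := ⟨h1, by omega⟩
  refine ⟨x, ⟨hcell, ?_, ?_⟩, ?_⟩
  · have := (ln_toCell x h1 h2 d ⟨i - 1, hi3⟩).1 (by rw [hxq]; exact hq1)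
    simp only at this
    rcases this with h | h
    · left; omega
    · right; omega
  · simp only [dif_pos hcell]
    rw [hxq, hq2]
    simp
  · rintro y ⟨hy1, hy2, hy3⟩
    simp only [dif_pos hy1] at hy3
    have hy4 : sy (toCell y hy1.1 (hsum y hy1)) = Fin.cast hsym s := by
      rw [← hy3]
      simp
    have hy5 : ln d (toCell y hy1.1 (hsum y hy1)) = ⟨i - 1, hi3⟩ := by
      rw [ln_toCell]
      simp only
      rcases hy2 with h | h
      · left; omega
      · right; omega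
    have hy6 := hq3 _ ⟨hy5, hy4⟩
    exact toCell_inj y x hy1.1 (hsum y hy1) h1 h2 (by rw [hy6, hxq])

theorem odd_orders (core : Core) : ∃ n0 : ℕ, ∀ n : ℕ, n0 < n → Odd n →
    ∃ L : (Fin 3 → ℕ) → Fin (symbols n), IsLatinTriangle n L := by
  obtain ⟨m0, hm0⟩ := core
  refine ⟨2 * m0 + 1, fun n hn hodd => ?_⟩
  obtain ⟨k, hk⟩ := hodd
  have hnm : n = 2 * (k + 1) - 1 := by omega
  subst hnm
  have hforb : Forb (k + 1) (2 * (k + 1) - 1)
      (∅ : Finset (Fin 3 × Fin (k + 1) × Fin (2 * (k + 1) - 1))) := by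
    refine ⟨by omega, ?_, ?_, ?_⟩
    · intro κ l
      simp
    · intro κ κ' s
      simp
    · intro κ s
      simp
  obtain ⟨sy, hsy⟩ := fill_of_PM _ (hm0 (k + 1) (by omega) _ _ hforb)
  exact odd_of_fill (by omega) sy hsy

end H69LR
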